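import Pool.Agent.H621.RM.Inv
import Pool.Agent.H621.RK.Tex
import Pool.Agent.R917.OM.Grp
import Pool.Agent.R917.DT.Mat
import Pool.Agent.R917.DT.Stb
import Pool.Agent.R917.DT.Rig

set_option autoImplicit false

/-!
# The periods of 1-motives relative to mixed Tate motives and to arbitrary motives

Let `M₀` be any Nori motive over `ℚ̄`, pure or mixed. Only its comparison isomorphism is used: an
invertible complex matrix `C` of size `r`, about which nothing is assumed. Let `A` be an abelian
variety over `ℚ̄`, and `M = [ℤ^n → S]` a 1-motive, where `S` is the extension of `A` by `G_m^s` given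
by the algebraic points `Q_l = exp(v_l)` of the dual abelian variety, and where the images of the
`e_i ∈ ℤ^n` in `A` are the algebraic points `P_i = exp(u_i)`. The periods of `M` are `2 π i`, the
periods and quasi-periods of `A`, the abelian integrals of the first and second kind of the points,
the periods of the integrals of the third kind, and the integrals of the third kind `ℓ_il`, the
logarithms of the images of the `e_i` in `S`. (The theorem is true for arbitrary complex numbers
`ℓ_il`; if they are logarithms of algebraic points then `M` is a 1-motive over `ℚ̄`.)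

The period conjecture says that the comparison isomorphism of `M₀ ⊕ M` is a generic point, over `ℚ̄`,
of a torsor under the motivic Galois group of `M₀ ⊕ M`. The consequences which can be formulated
without knowing the periods of `M₀` are statements about the algebraic groups `G` over `ℚ` with a
torsor over `ℚ̄` which contains the comparison isomorphism: they must contain `1 × N`, if the motivic
Galois group does.

Let `M₀` be a mixed Tate motive, or a successive extension of objects of rank one. The unit circle of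
the Deligne torus acts trivially on the graded pieces and on the bigrading of `M₀`, and so
`1 × Hg(M)` is contained in the motivic Galois group of `M₀ ⊕ M`, where the Hodge group `Hg(M)` of the
1-motive is the smallest algebraic group over `ℚ` which contains the image of the unit circle. It is a
normal subgroup of the Mumford-Tate group of `M`, the quotient is the Mumford-Tate group of the
mixed Tate motives in the tensor category generated by `M` (the logarithms of algebraic numbers). So
the statement `1 × Hg(M) ⊆ G` reduces the period conjecture for `M₀ ⊕ M`, in the formulation with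
torsors, to mixed Tate motives. We prove it if `A` is a factor of a determined abelian variety, and
the statement about the unipotent part of weight `-1` without any assumption on `A`.

If `M₀` is an arbitrary motive with a filtration with graded pieces of the ranks `r_l`, the
intersection of the motivic Galois group with `1 × GL` can be smaller, since `M₀` and `M` can be
related. The following theorem bounds the loss by `∑ l, ⌊r_l / 2⌋`, in terms of the ranks of compact
tori.

**Theorem.** Let `C` be block triangular with blocks of sizes `r_l`, let `A` be any abelian variety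
over `ℚ̄`, `M` any 1-motive over `A`, and let `G ⊆ GL_{r + 2g + s + n}` be any algebraic group over `ℚ`
with a torsor over `ℚ̄` which contains the matrix `C ⊕ (periods of M)`. There are a subalgebra `𝔥` of
the Lie algebra `𝔤` of the Hodge group of `A`, which acts semisimply on `H_1(A, ℚ)` with the
commutant `End(A) ⊗ ℚ`, and an ideal `𝔫` of `𝔥`, both closed under replicas, such that `𝔥 / 𝔫` has
the (compact) rank at most `∑ l, ⌊r_l / 2⌋`, `𝔫 = 𝔥` if all `r_l ≤ 1`, and

* every `Y ∈ 𝔫 ⊗ ℂ` has a lift `Y'` to a block triangular matrix with `1 × exp(Y') ∈ G`;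
* if the rational homology classes `z_i, z_l` satisfy all relations between the points `P_i, Q_l`,
  and are in the part of `H_1(A, ℚ)` on which `𝔫` acts nontrivially, then `G` contains `1 × N` for a
  unipotent element `N` with the parts `z_i, z_l` of weight `-1`;
* if `𝔫 ⊗ ℂ` contains the complex structure of `A`, then `1 × Hg(M) ⊆ G`.

If `A` is a factor of a determined abelian variety, then `𝔥 ⊗ ℂ` contains the complex structure.

Here an abelian variety `A` is called determined if `𝔤` has no proper algebraic subalgebras which act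
semisimply on `H_1(A, ℚ)`, with the same commutant. So `𝔥 = 𝔤` in this case.

**Corollary 1** (`rank_one_unipotent`). If all `r_l ≤ 1` (for example for mixed Tate motives `M₀`),
then `G` contains unipotent elements `1 × N` for all tuples of homology classes which satisfy the
relations between the points: there are no relations between the abelian integrals of the 1-motive
and the periods of `M₀`, in the sense of torsors, for all abelian varieties `A`.

**Corollary 2** (`rank_one`). If all `r_l ≤ 1`, and `A` is a factor of a determined abelian variety,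
then `1 × Hg(M) ⊆ G`.

**Corollary 3** (`determined_simple`). If `A` is determined, and `Hg(A)` is simple over `ℚ` and
contains a compact torus of dimension greater than `∑ l, ⌊r_l / 2⌋`, then `1 × Hg(M) ⊆ G`.

**Corollary 4** (`planes`). If all `r_l ≤ 1`, and `A` is a factor of an abelian variety whose
homology is a sum of planes (products of elliptic curves, with or without complex multiplication, and
of abelian varieties with real or totally indefinite quaternion multiplication of maximal rank), then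
`1 × Hg(M) ⊆ G`. All factors of powers of Jacobians `J_1(N)` of modular curves are of this form.

It was shown in the file `OneMotivesMumfordTate` of this problem that the following abelian varieties
are determined, in addition to those of Corollary 4: Kuga-Satake varieties of Hodge structures of K3
type with totally real field of endomorphisms `F`, of rank not five over `F`, or with a general CM
field of endomorphisms, general abelian fourfolds of Weil type, and simple abelian varieties with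
complex multiplication by a field `K` such that the odd part of `ℚ ^ Hom(K, ℂ)` is an irreducible
representation of the Galois group (`determined_of_det` below gives the connection).

There is no condition on the points: the deficient 1-motives of Ribet and Jacquinot are included.

For `r = 0` Corollary 2 is contained in the theorem of the file `OneMotivesMumfordTate`, and for
`n = s = 0` the theorem is contained in the theorem of the file `RankBound` of `MP_57341d_ag`. The
point is that nothing is assumed about the matrix `C`, and that `M` is mixed.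

## Proof

1. Let `Lie G` be the space of the matrices which stabilize the polynomials vanishing on `G`. It
contains the matrices `(D(C) C⁻¹, D(c) c⁻¹)` for the derivations `D` of `ℂ` over `ℚ̄`. The pairs
`(x ⊕ 2 c, α + c)` such that there is an element `(x, Y)` of `Lie G` with the graded pieces
`α + c`, `2 c` and `0` of `Y`, with `α ∈ 𝔤 ⊗ ℂ`, form a Lie algebra of pairs of matrices: the
pure part, with `M₀` replaced by `M₀ ⊕ ℚ(1)`. It is closed under the replicas of the pairs with
diagonalizable second component (`pp_rep`): if `Q ≡ σ(a)` modulo `(X - a)^N` for all eigenvalues `a` of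
`(x, Y)`, then `Q(x, Y) ∈ Lie G`. The arguments of `RankBound` now give `𝔥`, `𝔫` and the bound of the
rank.

2. The elements `(0, Y)` of `Lie G` form an ideal, and every element of `𝔫` has a lift to this
ideal. Let `U` be the unipotent part in weight `-1` of the Lie algebra of all `Y` with
`(x, Y) ∈ Lie G` for some `x`: it is given by the relations between the points (by the theorems of
Bost and Charles and of Wüstholz type, proved in `Pool.Agent.Y102` and `Pool.Agent.R917`). Since
`𝔥` is semisimple, `U` is the sum of `𝔫 U` and of the invariants of `𝔫`, and `𝔫 U` has a lift to the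
ideal (`uu_img`), as commutators with elements of the ideal.

3. Let the complex structure be in `𝔫 ⊗ ℂ`. By the theorem of `OneMotivesMumfordTate` the rational
components of the complex structure `J` of the mixed Hodge structure of `M` are in the Lie algebra of
all `Y`; by 2. they are in the ideal, modulo the weight `-2`. So `(0, J + T)` is in `Lie G` with
`T` of weight `-2`. The matrix `J` is diagonalizable, with the eigenvalues `0, i, -i`, and `T` is
nilpotent and commutes with `J`. So `(0, J)` is the semisimple part of `(0, J + T)`, and it is in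
`Lie G` by the theorem of Chevalley (`XJ_of_top`). This kills the unknown toric part `T`, which can
be correlated with `M₀`.
-/

open Module Matrix Pool.Agent.Y102 Pool.Agent.R917.OM Pool.Agent.W516.DR Pool.Agent.H204R3.GP

noncomputable section

namespace Pool.Agent.Results.MP_5d33ca_ag.RelativeOneMotives

section Hyp

variable {g : ℕ} (A : AbVar g)

/-! ### The Lie algebra of the Hodge group

All matrices act from the right, on rows. -/

/-- The rational matrices which act on `H_1(A, ℚ) = ℚ^(2g)` (the basis is the basis of the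
lattice). -/
abbrev Mat (g : ℕ) : Type := Matrix (Fin (2 * g)) (Fin (2 * g)) ℚ

/-- The complex matrices which act on `H_1(A, ℂ) = ℂ^(2g)`. -/
abbrev MatC (g : ℕ) : Type := Matrix (Fin (2 * g)) (Fin (2 * g)) ℂ

/-- The multilinear forms in `2m` variables in the rational homology. -/
abbrev Form (m : ℕ) : Type := MultilinearMap ℚ (fun _ : Fin m × Fin 2 => A.H1) ℚ

/-- `φ` is a de Rham-Betti class in `H^1(A) ^ {⊗ 2m} (m)`. -/
def IsDRB {m : ℕ} (φ : Form A m) : Prop :=
  IsDeRhamBettiForm QBar A.dR (2 * Real.pi * Complex.I) m φ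

/-- `φ` is a Hodge class in `H^1(A) ^ {⊗ 2m} (m)`. -/
def IsHodge {m : ℕ} (φ : Form A m) : Prop := IsHodgeTensor (A.per : A.H1 →+ (Fin g → ℂ)) φ

/-- The matrix `X` annihilates the form `φ` (as a derivation). -/
def Annihilates {m : ℕ} (X : Mat g) (φ : Form A m) : Prop :=
  ∀ v : Fin m × Fin 2 → Fin (2 * g) → ℚ, ∑ k, φ (Function.update v k (v k ᵥ* X)) = 0

/-- `X` is in the Lie algebra `𝔤` of the Hodge group: it annihilates all classes that are Hodge
classes and de Rham-Betti classes (by the theorem of Deligne all Hodge classes are de Rham-Betti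
classes). -/
def InLie (X : Mat g) : Prop :=
  ∀ (m : ℕ) (φ : Form A m), IsHodge A φ → IsDRB A φ → Annihilates A X φ

/-- The subspace `𝔥` is a Lie algebra contained in `𝔤`. -/
def IsSubalgebra (𝔥 : Submodule ℚ (Mat g)) : Prop :=
  (∀ X ∈ 𝔥, InLie A X) ∧ ∀ X ∈ 𝔥, ∀ Y ∈ 𝔥, X * Y - Y * X ∈ 𝔥

/-- The subspace `U` of the homology is stable under the elements of `𝔥`. -/
def Stable (𝔥 : Submodule ℚ (Mat g)) (U : Submodule ℚ (Fin (2 * g) → ℚ)) : Prop :=
  ∀ X ∈ 𝔥, ∀ u ∈ U, u ᵥ* X ∈ U

/-- The action of `𝔥` on the homology is semisimple. -/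
def IsSemisimple (𝔥 : Submodule ℚ (Mat g)) : Prop :=
  ∀ U, Stable 𝔥 U → ∃ U', Stable 𝔥 U' ∧ IsCompl U U'

/-- Every matrix which commutes with `𝔥` commutes with `𝔤`. -/
def SameCommutant (𝔥 : Submodule ℚ (Mat g)) : Prop :=
  ∀ P : Mat g, (∀ X ∈ 𝔥, X * P = P * X) → ∀ X : Mat g, InLie A X → X * P = P * X

/-- The complex matrix of a rational matrix. -/
def cplx (X : Mat g) : MatC g := X.map (algebraMap ℚ ℂ)

/-- The complex matrices in `𝔥 ⊗ ℂ`. -/
def complexSpan (𝔥 : Submodule ℚ (Mat g)) : Submodule ℂ (MatC g) :=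
  Submodule.span ℂ {Y | ∃ Z ∈ 𝔥, Y = cplx Z}

/-- `𝔥` is closed under the replicas of its diagonalizable elements. Let `X ∈ 𝔥` be diagonalizable
over `ℂ`, with eigenvalues in the finite set `S`, let `σ : ℂ → ℂ` be additive, and let `Q` be a
polynomial with `Q(a) = σ(a)` for all `a ∈ S`. Then the matrix `Q(X)` is in the complex span of
`𝔥`. -/
def IsReplicaClosed (𝔥 : Submodule ℚ (Mat g)) : Prop :=
  ∀ X ∈ 𝔥, ∀ (S : Finset ℂ) (σ : ℂ →+ ℂ) (Q : Polynomial ℂ),
    Polynomial.aeval (cplx X) (∏ a ∈ S, (Polynomial.X - Polynomial.C a)) = 0 →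
    (∀ a ∈ S, Q.eval a = σ a) → Polynomial.aeval (cplx X) Q ∈ complexSpan 𝔥

/-- The Hodge group of `A` is determined by the endomorphisms of `A`: its Lie algebra `𝔤` has no
proper algebraic subalgebra `𝔥` which acts semisimply on the homology and has the same
commutant. -/
def Determined : Prop := ∀ 𝔥 : Submodule ℚ (Mat g), IsSubalgebra A 𝔥 → IsReplicaClosed 𝔥 →
  IsSemisimple 𝔥 → SameCommutant A 𝔥 → ∀ X, InLie A X → X ∈ 𝔥

/-- `𝔫` is an ideal of `𝔥`. -/
def IsIdeal (𝔥 𝔫 : Submodule ℚ (Mat g)) : Prop :=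
  𝔫 ≤ 𝔥 ∧ ∀ X ∈ 𝔥, ∀ Y ∈ 𝔫, X * Y - Y * X ∈ 𝔫

/-- The Hodge group of `A` is simple over `ℚ`: its Lie algebra has no algebraic ideals except for the
trivial ones. -/
def IsSimple : Prop := ∀ 𝔫 : Submodule ℚ (Mat g), (∀ Y ∈ 𝔫, InLie A Y) →
  (∀ X, InLie A X → ∀ Y ∈ 𝔫, X * Y - Y * X ∈ 𝔫) → IsReplicaClosed 𝔫 →
    𝔫 = ⊥ ∨ ∀ X, InLie A X → X ∈ 𝔫

/-! ### Factors -/

/-- `f` is a homomorphism (up to isogeny) from `A` to `B`: it is given by a linear map of the tangent
spaces, and the pull backs of the algebraic differential forms are algebraic. -/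
def IsHomomorphism {g' : ℕ} (B : AbVar g') (f : A.H1 →ₗ[ℚ] B.H1) : Prop :=
  (∃ F : (Fin g → ℂ) →ₗ[ℂ] (Fin g' → ℂ), ∀ w, F (A.per w) = B.per (f w)) ∧
    ∃ e : Fin g' ⊕ Fin g' → Fin g ⊕ Fin g → QBar,
      ∀ i w, B.dR i (f w) = ∑ j, algebraMap QBar ℂ (e i j) * A.dR j w

/-- `A` is a direct factor of `B`, up to isogeny. -/
def IsFactor {g' : ℕ} (B : AbVar g') : Prop :=
  ∃ (f : A.H1 →ₗ[ℚ] B.H1) (p : B.H1 →ₗ[ℚ] A.H1), IsHomomorphism A B f ∧
    IsHomomorphism B A p ∧ ∀ w, p (f w) = w

/-- The matrix of the Riemann form of the polarization in the basis of the lattice. -/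
def riemannMatrix : MatC g := Matrix.of fun i j =>
  (∑ k, (A.η i k * A.lam j k - A.η j k * A.lam i k)) / (2 * Real.pi * Complex.I)

/-! ### Compact tori in the Hodge group of the abelian variety -/

/-- The matrix of the multiplication by the complex number `z` on the tangent space
`H_1(A, ℝ) = ℂ ^ g`, in the basis of the lattice: the Hodge structure. -/
def hodge (z : ℂ) : MatC g := Matrix.of fun i j => ((A.lam.repr (z • A.lam i) j : ℝ) : ℂ)

/-- A subgroup of `GL_R(ℂ)` defined by polynomials with rational coefficients. -/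
def IsAlgebraicSubgroup {R : Type} [Fintype R] [DecidableEq R] (G : Subgroup (GL R ℂ)) : Prop :=
  ∃ I : Set (MvPolynomial (R × R) ℚ), ∀ x : GL R ℂ, x ∈ G ↔
    ∀ p ∈ I, MvPolynomial.aeval (fun b : R × R => (x : Matrix R R ℂ) b.1 b.2) p = 0

/-- The Hodge group of the abelian variety: the smallest algebraic group over `ℚ` which contains the
image of the circle under the Hodge structure. -/
def pureHodgeGroup : Subgroup (GL (Fin (2 * g)) ℂ) :=
  sInf {G | IsAlgebraicSubgroup G ∧ ∀ z : ℂ, ‖z‖ = 1 → ∃ x ∈ G, (x : MatC g) = hodge A z}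

/-! A torus of dimension `n` is given by projectors `P_a`, which decompose the homology into
eigenspaces, and the weights `w_a ∈ ℤ ^ n`. -/

/-- The element of the torus with the parameters `z`. -/
def torusElement {m n : ℕ} (P : Fin m → MatC g) (w : Fin m → Fin n → ℤ) (z : Fin n → ℂ) : MatC g :=
  ∑ a, (∏ j, z j ^ w a j) • P a

/-- The cocharacter with the coefficients `c`, as an element of the Lie algebra. -/
def cocharacter {m n : ℕ} (P : Fin m → MatC g) (w : Fin m → Fin n → ℤ) (c : Fin n → ℚ) : MatC g :=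
  ∑ a, (∑ j, (w a j : ℂ) * (c j : ℂ)) • P a

/-- The projectors decompose the homology, and the elements with `|z_j| = 1` are real. -/
structure IsTorus {m n : ℕ} (P : Fin m → MatC g) (w : Fin m → Fin n → ℤ) : Prop where
  sum : ∑ a, P a = 1
  mul : ∀ a b, P a * P b = if a = b then P a else 0
  real : ∀ z : Fin n → ℂ, (∀ j, ‖z j‖ = 1) →
    ∀ i j, (starRingEnd ℂ) (torusElement P w z i j) = torusElement P w z i j

/-- The torus acts effectively, up to a finite group: every nonzero cocharacter has a nonzero weight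
in one of the eigenspaces. -/
def IsEffective {m n : ℕ} (P : Fin m → MatC g) (w : Fin m → Fin n → ℤ) : Prop :=
  ∀ c : Fin n → ℚ, c ≠ 0 → ∃ a, P a ≠ 0 ∧ ∑ j, (w a j : ℚ) * c j ≠ 0

/-- The compact torus is contained in the Hodge group. -/
def InHodgeGroup {m n : ℕ} (P : Fin m → MatC g) (w : Fin m → Fin n → ℤ) : Prop :=
  ∀ z : Fin n → ℂ, (∀ j, ‖z j‖ = 1) → ∃ x ∈ pureHodgeGroup A, (x : MatC g) = torusElement P w z

/-! ### Sums of planes

Here the matrices act from the left, on columns. -/

namespace Planes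

/-- The endomorphisms of the rational homology `H_1(A, ℚ) = ℚ^(2g)` (the basis is the basis of the
lattice). -/
abbrev EndH (g : ℕ) : Type := Module.End ℚ (Fin (2 * g) → ℚ)

/-- The complex matrix of a rational endomorphism. -/
def mat (T : EndH g) : MatC g := (LinearMap.toMatrix' T).map (algebraMap ℚ ℂ)

/-- `T` is an endomorphism of `A` over `ℂ`, up to isogeny (an element of `End(A_ℂ) ⊗ ℚ`): it extends
to a complex linear endomorphism of the tangent space `ℂ ^ g`. -/
def IsComplexEnd (T : EndH g) : Prop := IsHodgeEnd (A.per : A.H1 →+ (Fin g → ℂ)) T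

/-- `T` is an endomorphism of `A` over `ℚ̄`, up to isogeny, in terms of its action on
`H^1_dR(A / ℚ̄)`: the periods and quasi-periods of `T(w)` are linear combinations with algebraic
coefficients of those of `w`. -/
def IsAlgebraicEnd (T : EndH g) : Prop := IsDeRhamBettiEnd QBar A.dR T

/-- The projector `P` is symmetric with respect to the polarization. -/
def IsSymmetric (P : MatC g) : Prop := Pᵀ * riemannMatrix A = riemannMatrix A * P

/-- The homology `H_1(A, ℂ)` is the sum of the planes `V_i = P_i H_1(A, ℂ)`, `i = 1, ..., g`, given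
by projectors `P_i` of rank two in `End(A) ⊗ ℂ`. Each of them is the homology of an elliptic curve
(`P_i` is rational), or `P_i` is symmetric and `P_i End(A) P_i = ℂ P_i`. Two of the elliptic curves
are isogenous over `ℚ̄` or not isogenous over `ℂ` (this is always the case for elliptic curves over
`ℚ̄`). -/
structure IsPlaneDecomposition (P : Fin g → MatC g) : Prop where
  algebraic : ∀ i, P i ∈ Submodule.span ℂ {M | ∃ T, IsAlgebraicEnd A T ∧ M = mat T}
  projector : ∀ i, P i * P i = P i
  sum : ∑ i, P i = 1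
  plane : ∀ i, (P i).trace = 2
  type : ∀ i, (∃ E : EndH g, P i = mat E) ∨
    (IsSymmetric A (P i) ∧ ∀ T, IsAlgebraicEnd A T → ∃ z : ℂ, P i * mat T * P i = z • P i)
  isogeny : ∀ i j (E E' : EndH g), i ≠ j → P i = mat E → P j = mat E' →
    (∃ T, IsAlgebraicEnd A T ∧ E' * T * E ≠ 0) ∨ ∀ T, IsComplexEnd A T → E' * T * E = 0

/-- The homology of `A` is a sum of planes as above. -/
def IsSumOfPlanes : Prop := ∃ P : Fin g → MatC g, IsPlaneDecomposition A P

end Planes

end Hyp

section Motives

variable {g n s : ℕ} (A : AbVarG g)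

/-! ### 1-motives and their periods -/

/-- The basis of the Betti realization of the 1-motive: the basis `λ_j` of the lattice of `A`, the
basis `γ_l` of `H_1(G_m^s)`, the basis `e_i` of `ℤ^n`. -/
abbrev BettiM (g n s : ℕ) : Type := Fin (2 * g) ⊕ (Fin s ⊕ Fin n)

/-- The basis of the de Rham cohomology of the 1-motive: the invariant differentials `d z_k` and the
differentials of the second kind `d h_k` on `A`, the invariant differentials of the third kind `ω_l`
on the semiabelian variety, and a basis for `ℤ^n`. -/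
abbrev DeRhamM (g n s : ℕ) : Type := (Fin g ⊕ Fin g) ⊕ (Fin s ⊕ Fin n)

/-- The integral of the second kind `h_k = ∂ k (log θ 0)`, with the value zero at the origin. -/
def second (k : Fin g) (z : Fin g → ℂ) : ℂ := pd k (A.θ 0) z / A.θ 0 z - pd k (A.θ 0) 0

/-- The comparison isomorphism of the 1-motive. The rows are the Betti side. -/
def periodMatrix (u : Fin n → Fin g → ℂ) (v : Fin s → Fin g → ℂ) (ℓ : Fin n → Fin s → ℂ) :
    Matrix (BettiM g n s) (DeRhamM g n s) ℂ := Matrix.of fun r c =>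
  match r, c with
  | Sum.inl j, Sum.inl (Sum.inl k) => A.lam j k
  | Sum.inl j, Sum.inl (Sum.inr k) => A.η j k
  | Sum.inl j, Sum.inr (Sum.inl l) => ∑ k, (second A k (v l) * A.lam j k - v l k * A.η j k)
  | Sum.inr (Sum.inl l), Sum.inr (Sum.inl l') => if l = l' then 2 * Real.pi * Complex.I else 0
  | Sum.inr (Sum.inr i), Sum.inl (Sum.inl k) => u i k
  | Sum.inr (Sum.inr i), Sum.inl (Sum.inr k) => second A k (u i)
  | Sum.inr (Sum.inr i), Sum.inr (Sum.inl l) => ℓ i l
  | Sum.inr (Sum.inr i), Sum.inr (Sum.inr i') => if i = i' then 1 else 0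
  | _, _ => 0

/-! ### The mixed Hodge structure of the 1-motive, and its Hodge group -/

/-- The Hodge filtration: the vectors of `H_1(M, ℂ)` (in terms of their coordinates) on which the
invariant differentials of the semiabelian variety vanish. -/
def F0 (u : Fin n → Fin g → ℂ) (v : Fin s → Fin g → ℂ) (ℓ : Fin n → Fin s → ℂ)
    (x : BettiM g n s → ℂ) : Prop :=
  (∀ k, ∑ r, x r * periodMatrix A u v ℓ r (Sum.inl (Sum.inl k)) = 0) ∧
    ∀ l, ∑ r, x r * periodMatrix A u v ℓ r (Sum.inr (Sum.inl l)) = 0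

/-- The part of weight `≤ -1` of the homology, the homology of the semiabelian variety. -/
def W1 (x : BettiM g n s → ℂ) : Prop := ∀ i, x (Sum.inr (Sum.inr i)) = 0

/-- The part of weight `≤ -2` of the homology, the homology of the torus. -/
def W2 (x : BettiM g n s → ℂ) : Prop :=
  (∀ j, x (Sum.inl j) = 0) ∧ ∀ i, x (Sum.inr (Sum.inr i)) = 0

/-- The complex conjugate vector. -/
def bar (x : BettiM g n s → ℂ) : BettiM g n s → ℂ := fun r => (starRingEnd ℂ) (x r)

/-- The matrix `M` gives the action of the element `z` of the Deligne torus on the homology of the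
1-motive (vectors are rows): it acts by `1` on `I^{0,0} = F^0 ∩ (F̄^0 + W_{-2})`, by `z̄` on
`I^{0,-1} = F^0 ∩ W_{-1}`, by `z` on its complex conjugate `I^{-1,0}` and by `z z̄` on
`I^{-1,-1} = W_{-2}`. -/
structure IsDeligne (u : Fin n → Fin g → ℂ) (v : Fin s → Fin g → ℂ) (ℓ : Fin n → Fin s → ℂ)
    (z : ℂ) (M : Matrix (BettiM g n s) (BettiM g n s) ℂ) : Prop where
  zero_zero : ∀ x y w, F0 A u v ℓ x → F0 A u v ℓ y → W2 w → x = bar y + w → x ᵥ* M = x
  zero_neg : ∀ x, F0 A u v ℓ x → W1 x → x ᵥ* M = (starRingEnd ℂ) z • x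
  neg_zero : ∀ x, F0 A u v ℓ x → W1 x → bar x ᵥ* M = z • bar x
  neg_neg : ∀ x, W2 x → x ᵥ* M = (z * (starRingEnd ℂ) z) • x

/-- The Hodge group `Hg(M)` of the 1-motive: the smallest algebraic group over `ℚ` which contains the
image of the unit circle in the Deligne torus. -/
def hodgeGroup (u : Fin n → Fin g → ℂ) (v : Fin s → Fin g → ℂ) (ℓ : Fin n → Fin s → ℂ) :
    Subgroup (GL (BettiM g n s) ℂ) :=
  sInf {G | IsAlgebraicSubgroup G ∧ ∀ z : ℂ, ‖z‖ = 1 → ∃ x ∈ G,
    IsDeligne A u v ℓ z (x : Matrix (BettiM g n s) (BettiM g n s) ℂ)}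

/-! ### The unipotent part -/

/-- The rational homology classes `z_q` satisfy the relations between the points `P_i = exp(u_i)`
and `Q_l = exp(v_l)`: if `∑ f_q(P_q)` is a torsion point, with endomorphisms `f_q` of `A` (up to
isogeny, acting on the homology by `f_q` and on the tangent space by `F_q`), then
`∑ f_q(z_q) = 0`. -/
def SatisfiesRelations (u : Fin n → Fin g → ℂ) (v : Fin s → Fin g → ℂ)
    (z : Fin n ⊕ Fin s → Fin (2 * g) → ℚ) : Prop :=
  ∀ (f : Fin n ⊕ Fin s → Module.End ℚ A.H1) (F : Fin n ⊕ Fin s → (Fin g → ℂ) →ₗ[ℂ] (Fin g → ℂ)),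
    (∀ q w, A.per (f q w) = F q (A.per w)) →
    (∃ w, ∑ q, F q (Sum.elim u v q) = A.per w) → ∑ q, f q (z q) = 0

/-- `M` is a unipotent matrix, trivial on the graded pieces of the weight filtration, whose parts of
weight `-1` are given by the homology classes `z_q`: `e_i ↦ e_i + z_i + ...` and
`x ↦ x + ∑ l, E(z_l, x) γ_l` for `x` in the homology of `A`. -/
structure IsUnipotent (z : Fin n ⊕ Fin s → Fin (2 * g) → ℚ)
    (M : Matrix (BettiM g n s) (BettiM g n s) ℂ) : Prop where
  jj : ∀ j j', M (Sum.inl j) (Sum.inl j') = if j = j' then 1 else 0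
  jl : ∀ j l, M (Sum.inl j) (Sum.inr (Sum.inl l)) =
    ∑ k, (z (Sum.inr l) k : ℂ) * riemannMatrix A.toAbVar k j
  ji : ∀ j i, M (Sum.inl j) (Sum.inr (Sum.inr i)) = 0
  lj : ∀ l j, M (Sum.inr (Sum.inl l)) (Sum.inl j) = 0
  ll : ∀ l l', M (Sum.inr (Sum.inl l)) (Sum.inr (Sum.inl l')) = if l = l' then 1 else 0
  li : ∀ l i, M (Sum.inr (Sum.inl l)) (Sum.inr (Sum.inr i)) = 0
  ij : ∀ i j, M (Sum.inr (Sum.inr i)) (Sum.inl j) = (z (Sum.inl i) j : ℂ)
  ii : ∀ i i', M (Sum.inr (Sum.inr i)) (Sum.inr (Sum.inr i')) = if i = i' then 1 else 0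

/-- `Y'` is a block triangular matrix which acts by `Y` on the homology of `A`, and by zero on the
other graded pieces of the weight filtration. -/
structure IsLift (Y : MatC g) (Y' : Matrix (BettiM g n s) (BettiM g n s) ℂ) : Prop where
  jj : ∀ j j', Y' (Sum.inl j) (Sum.inl j') = Y j j'
  ji : ∀ j i, Y' (Sum.inl j) (Sum.inr (Sum.inr i)) = 0
  lj : ∀ l j, Y' (Sum.inr (Sum.inl l)) (Sum.inl j) = 0
  ll : ∀ l l', Y' (Sum.inr (Sum.inl l)) (Sum.inr (Sum.inl l')) = 0
  li : ∀ l i, Y' (Sum.inr (Sum.inl l)) (Sum.inr (Sum.inr i)) = 0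
  ii : ∀ i i', Y' (Sum.inr (Sum.inr i)) (Sum.inr (Sum.inr i')) = 0

/-! ### Algebraic groups which contain the periods -/

/-- The basis of the Betti realization of `M₀ ⊕ M`. -/
abbrev Betti (r g n s : ℕ) : Type := Fin r ⊕ BettiM g n s

/-- The basis of the de Rham realization of `M₀ ⊕ M`. -/
abbrev DeRham (r g n s : ℕ) : Type := Fin r ⊕ DeRhamM g n s

/-- The comparison isomorphism `c` of `M₀ ⊕ M`, given by the matrix `C` and the period matrix of the
1-motive, is an element of a torsor `G · T⁻¹` of `G`, defined over the algebraic numbers: `T` is a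
matrix with algebraic entries (an isomorphism between the Betti side and the de Rham side) such that
`c T ∈ G`. -/
def ContainsPeriods {r : ℕ} (C : Matrix (Fin r) (Fin r) ℂ) (u : Fin n → Fin g → ℂ)
    (v : Fin s → Fin g → ℂ) (ℓ : Fin n → Fin s → ℂ) (G : Subgroup (GL (Betti r g n s) ℂ)) : Prop :=
  ∃ T : Matrix (DeRham r g n s) (Betti r g n s) ℂ, (∀ i j, IsAlgebraic ℚ (T i j)) ∧
    ∃ x ∈ G, (x : Matrix (Betti r g n s) (Betti r g n s) ℂ) =
      fromBlocks C 0 0 (periodMatrix A u v ℓ) * T

/-- The group `G` contains the element `1 × M`. -/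
def Contains {r : ℕ} (G : Subgroup (GL (Betti r g n s) ℂ))
    (M : Matrix (BettiM g n s) (BettiM g n s) ℂ) : Prop :=
  ∃ y ∈ G, (y : Matrix (Betti r g n s) (Betti r g n s) ℂ) = fromBlocks 1 0 0 M

end Motives

/-! ### Proofs -/

section Prf

open Pool.Agent.R917.DT Pool.Agent.R917.EC Pool.Agent.H621.RK Pool.Agent.R917

variable {g : ℕ} (A : AbVar g)

/-- The matrix of an endomorphism of the homology. -/
def mat (X : Module.End ℚ A.H1) : Mat g := (LinearMap.toMatrix' X)ᵀ

theorem vecMul_mat (X : Module.End ℚ A.H1) (v : Fin (2 * g) → ℚ) : v ᵥ* mat A X = X v := by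
  unfold mat
  rw [Matrix.vecMul_transpose]
  exact LinearMap.toMatrix'_mulVec X v

theorem mat_mul (X Y : Module.End ℚ A.H1) : mat A (X * Y) = mat A Y * mat A X := by
  unfold mat
  rw [← Matrix.transpose_mul]
  exact congrArg Matrix.transpose (LinearMap.toMatrix'_mul X Y)

/-- the matrices of the endomorphisms -/
def matL : Module.End ℚ A.H1 ≃ₗ[ℚ] Mat g :=
  (LinearMap.toMatrix' : _ ≃ₗ[ℚ] Mat g).trans (Matrix.transposeLinearEquiv _ _ ℚ ℚ)

theorem matL_apply (X : Module.End ℚ A.H1) : matL A X = mat A X := rfl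

theorem mat_br (X Y : Module.End ℚ A.H1) :
    mat A (X * Y - Y * X) = mat A Y * mat A X - mat A X * mat A Y := by
  rw [← mat_mul, ← mat_mul]
  exact map_sub (matL A) _ _

theorem mat_inj {X Y : Module.End ℚ A.H1} (h : mat A X = mat A Y) : X = Y :=
  (matL A).injective h

theorem mat_surj (X : Mat g) : ∃ Y : Module.End ℚ A.H1, mat A Y = X :=
  (matL A).surjective X

theorem inLie_mat {X : Module.End ℚ A.H1} : InLie A (mat A X) ↔ X ∈ A.NA := by
  constructor
  · intro h m φ h1 h2 v
    have h3 := h m φ h1 h2 v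
    simp only [vecMul_mat] at h3
    exact h3
  · intro h m φ h1 h2 v
    simp only [vecMul_mat]
    exact h m φ h1 h2 v

theorem cplx_mat (X : Module.End ℚ A.H1) : cplx (mat A X) = rm X := by
  rw [rm_eq, toC_eq]
  rfl

/-- the space of the matrices -/
def mm (𝔥 : Submodule ℚ (Module.End ℚ A.H1)) : Submodule ℚ (Mat g) := 𝔥.map (matL A).toLinearMap

theorem mem_mm {𝔥 : Submodule ℚ (Module.End ℚ A.H1)} (X : Module.End ℚ A.H1) :
    mat A X ∈ mm A 𝔥 ↔ X ∈ 𝔥 := by
  constructor
  · rintro ⟨Y, hY, hYX⟩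
    rw [← mat_inj A hYX]
    exact hY
  · intro hX
    exact ⟨X, hX, rfl⟩

theorem span_mm (𝔥 : Submodule ℚ (Module.End ℚ A.H1)) :
    complexSpan (mm A 𝔥) = Submodule.span ℂ {Y | ∃ Z ∈ 𝔥, Y = rm Z} := by
  unfold complexSpan
  congr 1
  ext Y
  constructor
  · rintro ⟨Z, ⟨X, hX, rfl⟩, rfl⟩
    exact ⟨X, hX, cplx_mat A X⟩
  · rintro ⟨Z, hZ, rfl⟩
    exact ⟨mat A Z, (mem_mm A Z).2 hZ, (cplx_mat A Z).symm⟩

theorem mm_RC {𝔥 : Submodule ℚ (Module.End ℚ A.H1)} (hRC : RC 𝔥) : IsReplicaClosed (mm A 𝔥) := by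
  rintro _ ⟨Y, hY, rfl⟩ S σ Q hS hQ
  rw [span_mm]
  change Polynomial.aeval (cplx (mat A Y)) _ = 0 at hS
  change Polynomial.aeval (cplx (mat A Y)) Q ∈ _
  rw [cplx_mat] at hS ⊢
  exact rc_iff'.1 hRC Y hY S σ Q hS hQ

theorem mm_semi {𝔥 : Submodule ℚ (Module.End ℚ A.H1)} (h : A.Full 𝔥) :
    IsSemisimple (mm A 𝔥) := by
  intro U hU
  obtain ⟨U', h1, h2⟩ := h.semi U (fun Y hY u hu => by
    have h3 := hU _ ((mem_mm A Y).2 hY) u hu
    rwa [vecMul_mat] at h3)
  refine ⟨U', ?_, h2⟩
  rintro _ ⟨Y, hY, rfl⟩ u hu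
  have h3 := h1 Y hY u hu
  rwa [← vecMul_mat] at h3

theorem mm_comm {𝔥 : Submodule ℚ (Module.End ℚ A.H1)} (h : A.Full 𝔥) :
    SameCommutant A (mm A 𝔥) := by
  intro P hP Y hY
  obtain ⟨P, rfl⟩ := mat_surj A P
  obtain ⟨Y, rfl⟩ := mat_surj A Y
  rw [← mat_mul, ← mat_mul]
  congr 1
  refine (h.comm P (fun Z hZ => mat_inj A ?_) Y ((inLie_mat A).1 hY)).symm
  rw [mat_mul, mat_mul]
  exact (hP _ ((mem_mm A Z).2 hZ)).symm

theorem mm_sub {𝔥 : Submodule ℚ (Module.End ℚ A.H1)} (h : A.Full 𝔥) :
    IsSubalgebra A (mm A 𝔥) := by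
  refine ⟨?_, ?_⟩
  · rintro _ ⟨Y, hY, rfl⟩
    exact (inLie_mat A).2 (h.le hY)
  · rintro _ ⟨Y, hY, rfl⟩ _ ⟨Z, hZ, rfl⟩
    have h1 := (mem_mm A (Z * Y - Y * Z)).2 (h.br Z hZ Y hY)
    rw [mat_br] at h1
    exact h1

theorem det_of_determined (hA : Determined A) : Det A := by
  intro 𝔥 h hRC X hX
  rw [← mem_mm A]
  exact hA _ (mm_sub A h) (mm_RC A hRC) (mm_semi A h) (mm_comm A h) _ ((inLie_mat A).2 hX)

variable {A}

theorem isAlg_fx {κ : Type} [Fintype κ] [DecidableEq κ] (c : (κ → Fin (2 * g)) → ℚ) :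
    ∃ G : Subgroup (GL (Fin (2 * g)) ℂ), IsAlgebraicSubgroup G ∧
      ∀ x : GL (Fin (2 * g)) ℂ, x ∈ G ↔ Fx c (x : MatC g) := by
  refine ⟨{ carrier := {x | Fx c (x : MatC g)}
            one_mem' := Fx_one c
            mul_mem' := fun {x y} hx hy => Fx_mul hx hy
            inv_mem' := fun {x} hx => Fx_inv (M := (x : MatC g)) (by
              rw [← Units.val_mul, inv_mul_cancel, Units.val_one]) hx },
    ⟨eqs c, fun x => Fx_iff c (x : MatC g)⟩, fun x => Iff.rfl⟩

/-- The elements of the Hodge group fix the Hodge tensors. -/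
theorem fx_of_pureHodgeGroup {κ : Type} [Fintype κ] [DecidableEq κ]
    {ψ : MultilinearMap ℚ (fun _ : κ => A.H1) ℚ}
    (hψ : IsHodgeTensor (A.per : A.H1 →+ (Fin g → ℂ)) ψ) {x : GL (Fin (2 * g)) ℂ}
    (hx : x ∈ pureHodgeGroup A) : Fx (cf (A := A) ψ) (x : MatC g) := by
  obtain ⟨G, hG, h1⟩ := isAlg_fx (cf (A := A) ψ)
  rw [← h1]
  have hle : pureHodgeGroup A ≤ G := by
    refine sInf_le ⟨hG, fun z hz => ?_⟩
    have hz0 : z ≠ 0 := by
      rintro rfl
      rw [norm_zero] at hz
      exact zero_ne_one hz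
    let x : GL (Fin (2 * g)) ℂ := ⟨hm A z, hm A z⁻¹, by
      rw [← hm_mul, mul_inv_cancel₀ hz0, hm_one], by
      rw [← hm_mul, inv_mul_cancel₀ hz0, hm_one]⟩
    exact ⟨x, (h1 x).2 (Fx_hodge hψ hz), rfl⟩
  exact hle hx

theorem cocharacter_eq {m n : ℕ} (P : Fin m → MatC g) (w : Fin m → Fin n → ℤ) (c : Fin n → ℚ) :
    cocharacter P w c = ∑ j, ((c j : ℂ) * (-Complex.I)) • gen P w j := by
  unfold gen cocharacter
  simp only [Finset.smul_sum, smul_smul]
  rw [Finset.sum_comm]
  refine Finset.sum_congr rfl fun a _ => ?_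
  rw [Finset.sum_smul]
  refine Finset.sum_congr rfl fun j _ => ?_
  congr 1
  linear_combination ((w a j : ℂ) * (c j : ℂ)) * Complex.I_mul_I

theorem gen_eq {m n : ℕ} (P : Fin m → MatC g) (w : Fin m → Fin n → ℤ) (j : Fin n) :
    gen P w j = Complex.I • cocharacter P w (Pi.single j 1) := by
  unfold gen cocharacter
  rw [Finset.smul_sum]
  refine Finset.sum_congr rfl fun a _ => ?_
  rw [smul_smul, Finset.sum_eq_single j]
  · rw [Pi.single_eq_same, Rat.cast_one, mul_one]
    congr 1
    exact mul_comm _ _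
  · intro b _ hb
    rw [Pi.single_eq_of_ne hb, Rat.cast_zero, mul_zero]
  · intro h
    exact absurd (Finset.mem_univ _) h

end Prf

section Prf2

open Pool.Agent.R917.DT Pool.Agent.R917.EC Pool.Agent.R917 Pool.Agent.TH119.MX

open Pool.Agent.H621.RK (R2 PP PP_der exp_PP bd bd_apply)

variable {r g n s : ℕ} {A : AbVarG g}

/-- the data of the 1-motive -/
def dat (A : AbVarG g) (u : Fin n → Fin g → ℂ) (v : Fin s → Fin g → ℂ) (ℓ : Fin n → Fin s → ℂ) :
    Dt g n s where
  P := Sum.elim (fun i => Sum.elim (u i) (fun k => second A k (u i)))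
    (fun l => Sum.elim (v l) (fun k => second A k (v l)))
  ℓ := ℓ

theorem per_eb (j : Fin (2 * g)) (k : Fin g) : A.dR (Sum.inl k) (eb A.toAbVar j) = A.lam j k := by
  change A.per (Pi.single j 1) k = _
  unfold AbVar.per
  rw [Fintype.linearCombination_apply_single, one_smul]

theorem eta_eb (j : Fin (2 * g)) (k : Fin g) : A.dR (Sum.inr k) (eb A.toAbVar j) = A.η j k := by
  change A.eta (Pi.single j 1) k = _
  unfold AbVar.eta
  rw [Fintype.linearCombination_apply_single, one_smul]

theorem periodMatrix_eq (u : Fin n → Fin g → ℂ) (v : Fin s → Fin g → ℂ)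
    (ℓ : Fin n → Fin s → ℂ) : periodMatrix A u v ℓ = pmat A.toAbVar (dat A u v ℓ) := by
  ext r c
  rcases r with j | l | i <;> rcases c with (k | k) | l' | i' <;>
    simp [periodMatrix, pmat, dat, per_eb, eta_eb, thd, tau]

theorem riemannMatrix_eq {A : AbVar g} (i j : Fin (2 * g)) :
    riemannMatrix A i j = ((A.om (Pi.single i 1) (Pi.single j 1) : ℚ) : ℂ) := by
  have hl : ∀ j, A.per (Pi.single j 1) = A.lam j := by
    intro j
    unfold AbVar.per
    rw [Fintype.linearCombination_apply_single, one_smul]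
  have h1 : ((A.om (Pi.single i 1) (Pi.single j 1) : ℚ) : ℂ) =
      ((A.E (A.lam i) (A.lam j) : ℝ) : ℂ) := by
    rw [← hl i, ← hl j, ← A.om_coe]
    exact (Complex.ofReal_ratCast _).symm
  change _ = ((A.om (Pi.single i 1) (Pi.single j 1) : ℚ) : ℂ)
  rw [h1, A.E_coe]
  unfold riemannForm
  have h2 : ∀ i k, (∑ j, (A.lam.repr (A.lam i) j : ℂ) * A.η j k) = A.η i k := by
    intro i k
    rw [Finset.sum_eq_single i]
    · rw [Basis.repr_self, Finsupp.single_eq_same]
      push_cast
      ring
    · intro j _ hj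
      rw [Basis.repr_self, Finsupp.single_eq_of_ne hj]
      push_cast
      ring
    · intro h
      exact absurd (Finset.mem_univ _) h
  simp only [h2]
  rfl

/-- the group of the block matrices -/
def blk (r g n s : ℕ) : Matrix (BettiM g n s) (BettiM g n s) ℂ →*
    Matrix (Betti r g n s) (Betti r g n s) ℂ where
  toFun x := fromBlocks 1 0 0 x
  map_one' := fromBlocks_one
  map_mul' x y := by
    rw [fromBlocks_multiply]
    simp only [Matrix.mul_zero, Matrix.zero_mul, add_zero, zero_add, Matrix.one_mul]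

/-- the entries of the block matrices -/
def ent (r g n s : ℕ) (b : Betti r g n s × Betti r g n s) :
    MvPolynomial (BettiM g n s × BettiM g n s) ℚ :=
  match b with
  | (Sum.inl i, Sum.inl j) => if i = j then 1 else 0
  | (Sum.inr i, Sum.inr j) => MvPolynomial.X (i, j)
  | _ => 0

theorem aeval_ent (x : Matrix (BettiM g n s) (BettiM g n s) ℂ) (b : Betti r g n s × Betti r g n s) :
    MvPolynomial.aeval (fun c : BettiM g n s × BettiM g n s => x c.1 c.2) (ent r g n s b) =
      blk r g n s x b.1 b.2 := by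
  obtain ⟨i | i, j | j⟩ := b
  · change MvPolynomial.aeval _ (if i = j then 1 else 0) = (1 : Matrix (Fin r) (Fin r) ℂ) i j
    rw [Matrix.one_apply]
    split_ifs
    · exact map_one _
    · exact map_zero _
  · exact map_zero _
  · exact map_zero _
  · exact MvPolynomial.aeval_X _ _

theorem isAlg_comap {G : Subgroup (GL (Betti r g n s) ℂ)} (hG : IsAlgebraicSubgroup G) :
    IsAlgebraicSubgroup (G.comap (Units.map (blk r g n s))) := by
  obtain ⟨I, hI⟩ := hG
  refine ⟨(fun p => MvPolynomial.bind₁ (ent r g n s) p) '' I, fun x => ?_⟩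
  rw [Subgroup.mem_comap, hI]
  have key : ∀ p : MvPolynomial (Betti r g n s × Betti r g n s) ℚ,
      MvPolynomial.aeval (fun c : BettiM g n s × BettiM g n s =>
        (x : Matrix (BettiM g n s) (BettiM g n s) ℂ) c.1 c.2)
        (MvPolynomial.bind₁ (ent r g n s) p) =
          MvPolynomial.aeval (fun b : Betti r g n s × Betti r g n s =>
          ((Units.map (blk r g n s) x : GL (Betti r g n s) ℂ) :
            Matrix (Betti r g n s) (Betti r g n s) ℂ) b.1 b.2) p := by
    intro p
    rw [MvPolynomial.aeval_bind₁]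
    congr 2
    funext b
    exact aeval_ent _ b
  constructor
  · rintro h _ ⟨p, hp, rfl⟩
    rw [key]
    exact h p hp
  · intro h p hp
    rw [← key]
    exact h _ ⟨p, hp, rfl⟩

/-- The set of the matrices in the group. -/
abbrev gset (G : Subgroup (GL (Betti r g n s) ℂ)) :
    Set (Matrix (Fin r ⊕ RI g n s) (Fin r ⊕ RI g n s) ℂ) :=
  {M | ∃ x ∈ G, (x : Matrix _ _ ℂ) = M}

theorem ptM2_of {K : ℕ} {C : Matrix (Fin r) (Fin r) ℂ} (hC : IsUnit C.det)
    {lev : Fin r → Fin K} (hlev : ∀ i j, lev j < lev i → C i j = 0)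
    {u : Fin n → Fin g → ℂ} {v : Fin s → Fin g → ℂ} {ℓ : Fin n → Fin s → ℂ}
    {G : Subgroup (GL (Betti r g n s) ℂ)} (hG : IsAlgebraicSubgroup G)
    (hP : ContainsPeriods A C u v ℓ G) :
    Pool.Agent.H621.RM.PtM2 A.toAbVar (dat A u v ℓ) lev (gset G) := by
  classical
  have hgrp : AlgGrp QQ (gset G) := Pool.Agent.R917.algGrp_of hG
  refine ⟨hgrp, ?_⟩
  have h1 : C * C⁻¹ = 1 := Matrix.mul_nonsing_inv _ hC
  have hB : Pool.Agent.H621.BC.BT lev C := hlev
  have hB' : Pool.Agent.H621.BC.BT lev C⁻¹ := by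
    have hBT : C.BlockTriangular lev := fun i j hij => hlev i j hij
    let _ : Invertible C := Matrix.invertibleOfIsUnitDet C hC
    have h2 := Matrix.blockTriangular_inv_of_blockTriangular hBT
    exact fun i j hij => h2 hij
  obtain ⟨T, hT, x, hx, hxT⟩ := hP
  rw [periodMatrix_eq] at hxT
  let e : DeRham r g n s ≃ Betti r g n s := Equiv.sumCongr (Equiv.refl _) (ce g n s)
  have h2 : fromBlocks C 0 0 (pq A.toAbVar (dat A u v ℓ)) =
      (fromBlocks C 0 0 (pmat A.toAbVar (dat A u v ℓ)) :
        Matrix (Betti r g n s) (DeRham r g n s) ℂ).submatrix id e.symm := by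
    ext i j
    rcases i with i | i <;> rcases j with j | j <;> rfl
  have h3 : fromBlocks C 0 0 (pq A.toAbVar (dat A u v ℓ)) * T.submatrix e.symm id =
      fromBlocks C 0 0 (pmat A.toAbVar (dat A u v ℓ)) * T := by
    rw [h2, Matrix.submatrix_mul_equiv, Matrix.submatrix_id_id]
  have h4 : (fromBlocks C 0 0 (pq A.toAbVar (dat A u v ℓ))).det * (T.submatrix e.symm id).det ≠
      0 := by
    intro h0
    have h5 : (x : Matrix (Betti r g n s) (Betti r g n s) ℂ).det = 0 := by
      rw [hxT, ← h3, Matrix.det_mul, h0]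
    exact (Matrix.GeneralLinearGroup.det x).ne_zero h5
  have h5 : (pq A.toAbVar (dat A u v ℓ)).det ≠ 0 := by
    have h6 := left_ne_zero_of_mul h4
    rw [Matrix.det_fromBlocks_zero₂₁] at h6
    exact right_ne_zero_of_mul h6
  obtain ⟨T', h6, h7⟩ := Pool.Agent.R917.OM.alg_inv' (T := T.submatrix e.symm id)
    (fun i j => hT _ _) (right_ne_zero_of_mul h4)
  have h8 : pq A.toAbVar (dat A u v ℓ) * (pq A.toAbVar (dat A u v ℓ))⁻¹ = 1 :=
    Matrix.mul_nonsing_inv _ (isUnit_iff_ne_zero.2 h5)
  intro D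
  have h9 := PP_der hgrp h1 h8 hB hB' h6 h7 ⟨x, hx, by rw [hxT, h3]⟩ D
  refine ⟨C.map D * C⁻¹, ?_⟩
  convert h9 using 1
  refine Prod.ext rfl ?_
  change YD A.toAbVar (dat A u v ℓ) D = _
  have h10 : YD A.toAbVar (dat A u v ℓ) D * pq A.toAbVar (dat A u v ℓ) =
      (pq A.toAbVar (dat A u v ℓ)).map D := by
    have h11 : (YD A.toAbVar (dat A u v ℓ) D * pmat A.toAbVar (dat A u v ℓ)).submatrix id
        (ce g n s).symm = YD A.toAbVar (dat A u v ℓ) D * pq A.toAbVar (dat A u v ℓ) := by
      ext i j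
      rfl
    rw [← h11, YD_mul]
    ext i j
    rfl
  rw [← h10, Matrix.mul_assoc, h8, Matrix.mul_one]

/-! ### The Hodge group of the 1-motive -/

theorem deligne_exp (u : Fin n → Fin g → ℂ) (v : Fin s → Fin g → ℂ) (ℓ : Fin n → Fin s → ℂ)
    (θ : ℝ) : IsDeligne A u v ℓ (Complex.exp (θ * Complex.I))
      (NormedSpace.exp ((θ : ℂ) • XJ A.toAbVar (dat A u v ℓ))) := by
  have hM : ∀ (w : BettiM g n s → ℂ) (b : ℂ), w ᵥ* XJ A.toAbVar (dat A u v ℓ) = b • w →
      w ᵥ* NormedSpace.exp ((θ : ℂ) • XJ A.toAbVar (dat A u v ℓ)) =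
        Complex.exp (θ * b) • w := by
    intro w b hb
    refine vecMul_exp ?_
    rw [Matrix.vecMul_smul, hb, smul_smul]
  have hconj : (starRingEnd ℂ) (Complex.exp (θ * Complex.I)) =
      Complex.exp (θ * (-Complex.I)) := by
    rw [← Complex.exp_conj, map_mul, Complex.conj_ofReal, Complex.conj_I]
  have hF : ∀ a, F0 A u v ℓ a → (∀ k, i1 A.toAbVar (dat A u v ℓ) a k = 0) ∧
      ∀ l, i3 A.toAbVar (dat A u v ℓ) a l = 0 := by
    rintro a ⟨ha1, ha2⟩
    rw [periodMatrix_eq] at ha1 ha2
    exact ⟨ha1, ha2⟩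
  refine ⟨fun a b w ha hb hw hab => ?_, fun a ha ha1 => ?_, fun a ha ha1 => ?_, fun a ha => ?_⟩
  · obtain ⟨e1, e2⟩ := eig_0 (A := A.toAbVar) (d := dat A u v ℓ) (v := a) (f := b)
      (fun j => by rw [hab, Pi.add_apply, hw.1, add_zero]; rfl)
      (fun i => by rw [hab, Pi.add_apply, hw.2, add_zero]; rfl) (hF a ha).1 (hF a ha).2 (hF b hb).1
    have h3 := hM a 0 e2
    rwa [mul_zero, Complex.exp_zero, one_smul] at h3
  · obtain ⟨e1, e2⟩ := eig_m (A := A.toAbVar) (d := dat A u v ℓ) (v := a) ha1 (hF a ha).1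
      (hF a ha).2
    rw [hM a (-Complex.I) e2, hconj]
  · obtain ⟨e1, e2⟩ := eig_p (A := A.toAbVar) (d := dat A u v ℓ) (v := bar a) (w := a)
      (fun r => rfl) ha1 (hF a ha).1 (hF a ha).2
    rw [hM (bar a) Complex.I e2]
  · obtain ⟨e1, e2⟩ := eig_t (A := A.toAbVar) (d := dat A u v ℓ) (v := a) ha.1 ha.2
    rw [hM a 0 e2, mul_zero, Complex.exp_zero, hconj, ← Complex.exp_add]
    congr 1
    rw [← mul_add, add_neg_cancel, mul_zero, Complex.exp_zero]

/-- The group contains the Hodge group if its Lie algebra contains the complex structure. -/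
theorem contains_hodgeGroup {K : ℕ} {lev : Fin r → Fin K} {G : Subgroup (GL (Betti r g n s) ℂ)}
    (hG : IsAlgebraicSubgroup G) {u : Fin n → Fin g → ℂ} {v : Fin s → Fin g → ℂ}
    {ℓ : Fin n → Fin s → ℂ}
    (hJ : ((0, XJ A.toAbVar (dat A u v ℓ)) : R2 r (RI g n s)) ∈ PP lev (gset G)) :
    ∀ x ∈ hodgeGroup A u v ℓ, Contains G (x : Matrix (BettiM g n s) (BettiM g n s) ℂ) := by
  have hgrp : AlgGrp QQ (gset G) := Pool.Agent.R917.algGrp_of hG
  have hle : hodgeGroup A u v ℓ ≤ G.comap (Units.map (blk r g n s)) := by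
    refine sInf_le ⟨isAlg_comap hG, fun z hz => ?_⟩
    obtain ⟨t, ht⟩ : ∃ t : ℝ, Complex.exp (t * Complex.I) = z := by
      refine ⟨Complex.arg z, ?_⟩
      have h2 := Complex.norm_mul_exp_arg_mul_I z
      rwa [hz, Complex.ofReal_one, one_mul] at h2
    have h1 := (PP lev (gset G)).smul_mem (t : ℂ) hJ
    rw [Prod.smul_mk, smul_zero] at h1
    obtain ⟨y, hy, hyM⟩ := exp_PP hgrp h1
    have h2 : IsUnit (NormedSpace.exp ((t : ℂ) • XJ A.toAbVar (dat A u v ℓ))).det := by
      have h3 : (y : Matrix (Betti r g n s) (Betti r g n s) ℂ).det ≠ 0 :=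
        (Matrix.GeneralLinearGroup.det y).ne_zero
      rw [hyM, Matrix.det_fromBlocks_zero₂₁, Matrix.det_one, one_mul] at h3
      exact isUnit_iff_ne_zero.2 h3
    refine ⟨Matrix.GeneralLinearGroup.mk'' _ h2, ?_, ?_⟩
    · rw [Subgroup.mem_comap]
      have hxy : Units.map (blk r g n s) (Matrix.GeneralLinearGroup.mk'' _ h2) = y := by
        apply Units.ext
        rw [hyM]
        rfl
      rw [hxy]
      exact hy
    · rw [← ht]
      exact deligne_exp u v ℓ t
  intro x hx
  exact ⟨_, hle hx, rfl⟩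

theorem rel_iff {u : Fin n → Fin g → ℂ} {v : Fin s → Fin g → ℂ} {ℓ : Fin n → Fin s → ℂ}
    {z : Fin n ⊕ Fin s → Fin (2 * g) → ℚ} (hz : SatisfiesRelations A u v z) :
    Rel A.toAbVar (dat A u v ℓ) z := by
  intro f F h1 h2
  refine hz f F h1 ?_
  obtain ⟨w, hw⟩ := h2
  refine ⟨w, ?_⟩
  rw [← hw]
  refine Finset.sum_congr rfl fun q _ => ?_
  rcases q with i | l <;> rfl

theorem isUnipotent_of (z : Fin n ⊕ Fin s → A.H1) (t : Fin n → Fin s → ℚ) :
    IsUnipotent A z (1 + OM.mt ((0, 0, z, t) : Tup A.toAbVar n s) +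
        (2 : ℂ)⁻¹ • OM.mt ((0, 0, 0, fun i l => A.toAbVar.om (z (Sum.inr l)) (z (Sum.inl i))) :
          Tup A.toAbVar n s)) where
  jj := fun j j' => by
    simp [OM.mt, mtQ, op, Matrix.one_apply]
  jl := fun j l => by
    have h1 : ∑ k, (z (Sum.inr l) k : ℂ) * riemannMatrix A.toAbVar k j =
        ((A.toAbVar.om (z (Sum.inr l)) (eb A.toAbVar j) : ℚ) : ℂ) := by
      have h2 := lin_sum (A := A.toAbVar) (A.toAbVar.om.flip (eb A.toAbVar j)) (z (Sum.inr l))
      simp only [LinearMap.flip_apply, smul_eq_mul] at h2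
      rw [h2]
      push_cast
      refine Finset.sum_congr rfl fun k _ => ?_
      rw [riemannMatrix_eq]
      rfl
    rw [h1]
    simp [OM.mt, mtQ, op]
  ji := fun j i => by
    simp [OM.mt, mtQ, op]
  lj := fun l j => by
    simp [OM.mt, mtQ, op]
  ll := fun l l' => by
    simp [OM.mt, mtQ, op, Matrix.one_apply]
  li := fun l i => by
    simp [OM.mt, mtQ, op]
  ij := fun i j => by
    simp [OM.mt, mtQ, op]
  ii := fun i i' => by
    simp [OM.mt, mtQ, op, Matrix.one_apply]

end Prf2

open Pool.Agent.R917.DT Pool.Agent.R917.EC Pool.Agent.R917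

open Pool.Agent.H621.RK (R2 PP exp_PP gen gen_real tm mem_span_comp comp_of_span NAc_of_curve tm_deriv
  cur cur_norm tm_cur J_span J_NA Prj Fx cf rc_iff')

open Pool.Agent.H621.RM (hb nn pp hb_full hb_RC nn_RC nn_le_hb nn_ideal hb_le_nn J_hb Lif torus
  real_lift sum_lev' le_one_lev' pp_PtA of_span exA_inj exA)

/-- **Theorem.** Let `C` be an invertible complex matrix with zeros below the blocks given by `lev`,
let `A` be an abelian variety over `ℚ̄`, with algebraic points `P_i = exp(u_i)` and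
`Q_l = exp(v_l)`, and let `M` be a 1-motive with these points. Let `G` be an algebraic group over `ℚ`
with a torsor over `ℚ̄` which contains the matrix `C ⊕ (periods of M)`. -/
theorem result (r K g n s : ℕ) (C : Matrix (Fin r) (Fin r) ℂ) (hC : IsUnit C.det)
    (lev : Fin r → Fin K) (hlev : ∀ i j, lev j < lev i → C i j = 0) (A : AbVarG g)
    (u : Fin n → Fin g → ℂ) (v : Fin s → Fin g → ℂ) (ℓ : Fin n → Fin s → ℂ)
    (hu : ∀ i, IsPoint A.toAbVar (u i)) (hv : ∀ l, IsPoint A.toAbVar (v l))
    (G : Subgroup (GL (Betti r g n s) ℂ)) (hG : IsAlgebraicSubgroup G)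
    (hP : ContainsPeriods A C u v ℓ G) :
    ∃ 𝔥 𝔫 : Submodule ℚ (Mat g),
      -- `𝔥` is an algebraic subalgebra of `𝔤`, semisimple with the commutant `End(A) ⊗ ℚ`
      IsSubalgebra A.toAbVar 𝔥 ∧ IsReplicaClosed 𝔥 ∧ IsSemisimple 𝔥 ∧
      SameCommutant A.toAbVar 𝔥 ∧
      -- if `A` is a factor of a determined abelian variety, then it contains the complex structure
      ((∃ (g' : ℕ) (B : AbVar g'), Determined B ∧ IsFactor A.toAbVar B) →
        hodge A.toAbVar Complex.I ∈ complexSpan 𝔥) ∧
      -- `𝔫` is an algebraic ideal of `𝔥`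
      IsIdeal 𝔥 𝔫 ∧ IsReplicaClosed 𝔫 ∧
      -- the compact rank of `𝔥 / 𝔫` is at most `∑ l, ⌊r_l / 2⌋`
      (∀ (m k : ℕ) (P : Fin m → MatC g) (w : Fin m → Fin k → ℤ), IsTorus P w →
        (∀ c, cocharacter P w c ∈ complexSpan 𝔥) →
          ∃ W : Submodule ℚ (Fin k → ℚ),
            k ≤ finrank ℚ W + ∑ l : Fin K, Fintype.card {i // lev i = l} / 2 ∧
              ∀ c ∈ W, cocharacter P w c ∈ complexSpan 𝔫) ∧
      -- there is no loss if all graded pieces have the rank one
      ((∀ l : Fin K, Fintype.card {i // lev i = l} ≤ 1) → 𝔫 = 𝔥) ∧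
      -- the elements of `𝔫 ⊗ ℂ` have lifts such that `1 × exp(Y')` is contained in `G`
      (∀ Y ∈ complexSpan 𝔫, ∃ Y' : Matrix (BettiM g n s) (BettiM g n s) ℂ,
        IsLift Y Y' ∧ Contains G (NormedSpace.exp Y')) ∧
      -- `G` contains the unipotent elements given by the relations between the points, in the part
      -- of the homology of `A` on which `𝔫` acts nontrivially
      (∀ z : Fin n ⊕ Fin s → Fin (2 * g) → ℚ, SatisfiesRelations A u v z →
        (∀ q, z q ∈ Submodule.span ℚ {w | ∃ Y ∈ 𝔫, ∃ x, w = x ᵥ* Y}) →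
          ∃ M, IsUnipotent A z M ∧ Contains G M) ∧
      -- `1 × Hg(M)` is contained in `G`, if `𝔫 ⊗ ℂ` contains the complex structure
      (hodge A.toAbVar Complex.I ∈ complexSpan 𝔫 →
        ∀ x ∈ hodgeGroup A u v ℓ, Contains G (x : Matrix (BettiM g n s) (BettiM g n s) ℂ)) := by
  classical
  have hM := ptM2_of hC hlev hG hP
  have hR := pp_PtA hM
  have hfull := hb_full hR
  obtain ⟨K₁, hK₁, hrat⟩ := exists_rat_mult A (pt (dat A u v ℓ)) (by
    rintro (i | l)
    · exact Or.inl (hu i)
    · exact Or.inl (hv l))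
  set 𝔭 := pp A.toAbVar n s lev (gset G) with h𝔭
  refine ⟨mm A.toAbVar (hb A.toAbVar 𝔭), mm A.toAbVar (nn A.toAbVar 𝔭), mm_sub A.toAbVar hfull,
    mm_RC A.toAbVar (hb_RC hR), mm_semi A.toAbVar hfull, mm_comm A.toAbVar hfull, ?_,
    ⟨Submodule.map_mono nn_le_hb, ?_⟩, mm_RC A.toAbVar (nn_RC hR), ?_, ?_, ?_, ?_, ?_⟩
  · rintro ⟨g', B, hB, f, p, hf, hp, hpf⟩
    rw [span_mm]
    refine J_span fun t => J_hb hR ?_ t
    exact detJ_of_fac (f := f) (p := p) ⟨⟨hf.1, hf.2⟩, ⟨hp.1, hp.2⟩, hpf⟩ (det_of_determined B hB)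
  · rintro _ ⟨X, hX, rfl⟩ _ ⟨Y, hY, rfl⟩
    have h2 := (mem_mm A.toAbVar (X * Y - Y * X)).2 (nn_ideal hR hX hY)
    have h3 := (mm A.toAbVar (nn A.toAbVar 𝔭)).neg_mem h2
    rw [mat_br, neg_sub] at h3
    exact h3
  · intro m k P w hPw hc
    have hgen : ∀ j, Lif 𝔭 (gen P w j) := by
      intro j
      rw [gen_eq]
      refine Lif.smul _ ?_
      have h2 := hc (Pi.single j 1)
      rw [span_mm] at h2
      generalize cocharacter P w (Pi.single j 1) = y at h2
      induction h2 using Submodule.span_induction with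
      | mem Z hZ =>
        obtain ⟨Y, hY, rfl⟩ := hZ
        exact hY.2
      | zero => exact Lif.zero
      | add a b _ _ ha hb => exact ha.add hb
      | smul t a _ ha => exact ha.smul t
    obtain ⟨W, hW, hW'⟩ := torus hR.lp (P := P) ⟨hPw.sum, hPw.mul⟩ w fun j => by
      obtain ⟨x, hx⟩ := hgen j
      exact real_lift hR.lp hx (gen_real hPw.real j)
    rw [sum_lev'] at hW
    refine ⟨W, hW, fun c hcW => ?_⟩
    rw [span_mm]
    refine mem_span_comp fun lam => ?_
    have h2 := hc c
    rw [span_mm] at h2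
    obtain ⟨Y, hY, h3⟩ := comp_of_span h2 lam
    refine ⟨Y, ⟨hY.1, ?_⟩, h3⟩
    have h4 := hR.lp.comp _ (hW' c hcW) (lamF lam)
    rw [h3]
    convert h4 using 1
    refine Prod.ext ?_ rfl
    ext i j
    exact (map_zero (lamF lam)).symm
  · intro h2
    exact congrArg (mm A.toAbVar) (le_antisymm nn_le_hb (hb_le_nn hR (le_one_lev' h2)))
  · intro Y hY
    rw [span_mm] at hY
    obtain ⟨x, c, α, Y', h0, h1, h2, h3⟩ := of_span hY
    obtain ⟨e1, e2⟩ := Prod.ext_iff.1 h0
    change 0 = exA (x, 2 * c) at e1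
    change Y = α + c • 1 at e2
    have e3 := exA_inj (e1.symm.trans (map_zero exA).symm)
    obtain ⟨e4, e5⟩ := Prod.ext_iff.1 e3
    change x = 0 at e4
    change 2 * c = 0 at e5
    rw [← e2, e5] at h2
    subst e4
    refine ⟨Y', ⟨h2.jj, h2.ji, h2.lj, fun l l' => ?_, h2.li, fun i i' => ?_⟩,
      exp_PP hM.grp h3⟩
    · rw [h2.ll, ite_self]
    · rw [h2.ii, ite_self]
  · intro z hz hi
    obtain ⟨t, ht⟩ := Pool.Agent.H621.RM.unip_mem hM hrat (rel_iff hz) (fun q => by
      have h1 := hi q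
      unfold Pool.Agent.H621.RM.img
      refine Submodule.span_mono ?_ h1
      rintro _ ⟨_, ⟨Y, hY, rfl⟩, x, rfl⟩
      exact ⟨Y, hY, x, vecMul_mat A.toAbVar Y x⟩)
    exact ⟨_, isUnipotent_of z t, ht⟩
  · intro hJ
    refine contains_hodgeGroup hG (Pool.Agent.H621.RM.XJ_mem hM hrat fun t => ?_)
    rw [span_mm] at hJ
    obtain ⟨lam, hlam⟩ : ∃ lam : ℂ →ₗ[ℚ] ℚ, fr lam = t := by
      refine ⟨t ∘ₗ (Complex.reLm.restrictScalars ℚ), ?_⟩
      refine LinearMap.ext fun x => ?_
      rw [fr_apply]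
      change t ((x : ℂ).re) = t x
      rw [Complex.ofReal_re]
    obtain ⟨Y, hY, h1⟩ := comp_of_span hJ lam
    have h2 : rm Y = rm (A.toAbVar.cmpE (fr lam) AbVar.JJ) := by
      rw [h1, rm_eq]
      exact Pool.Agent.H621.BC.hm_comp lam
    rw [← hlam, ← rm_inj' h2]
    exact hY

/-! ### Corollaries -/

/-- The Lie algebra of the Hodge group. -/
def lieAlg {g : ℕ} (A : AbVar g) : Submodule ℚ (Mat g) := mm A A.NA

theorem mem_lieAlg {g : ℕ} {A : AbVar g} {X : Mat g} : X ∈ lieAlg A ↔ InLie A X := by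
  obtain ⟨X, rfl⟩ := mat_surj A X
  rw [inLie_mat]
  exact mem_mm A X

theorem hodge_lieAlg {g : ℕ} (A : AbVar g) : hodge A Complex.I ∈ complexSpan (lieAlg A) := by
  unfold lieAlg
  rw [span_mm]
  exact J_span J_NA

/-- The cocharacters of the compact tori in the Hodge group are in its Lie algebra. -/
theorem cocharacter_mem {g : ℕ} {A : AbVar g} {m n : ℕ} {P : Fin m → MatC g}
    {w : Fin m → Fin n → ℤ} (hPw : IsTorus P w) (hin : InHodgeGroup A P w) (c : Fin n → ℚ) :
    cocharacter P w c ∈ complexSpan (lieAlg A) := by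
  have hN : ∀ j, gen P w j ∈ complexSpan (lieAlg A) := by
    intro j
    unfold lieAlg
    rw [span_mm]
    refine mem_span_comp ?_
    refine NAc_of_curve (M := fun θ => tm P w (cur j θ)) ?_ (tm_deriv P w j)
      fun m ψ hψ θ => ?_
    · change tm P w (cur j 0) = 1
      rw [tm_cur, ← hPw.sum]
      refine Finset.sum_congr rfl fun a _ => ?_
      rw [Complex.ofReal_zero, zero_mul, Complex.exp_zero, one_smul]
    · obtain ⟨x, hx, hxz⟩ := hin _ (cur_norm j θ)
      have h2 := fx_of_pureHodgeGroup hψ hx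
      rw [hxz] at h2
      exact h2
  rw [cocharacter_eq]
  exact Submodule.sum_mem _ fun j _ => Submodule.smul_mem _ _ (hN j)

/-- A semisimple subalgebra with the same commutant acts without invariants. -/
theorem image_top {g : ℕ} {A : AbVar g} {𝔥 : Submodule ℚ (Mat g)} (hsub : IsSubalgebra A 𝔥)
    (hsemi : IsSemisimple 𝔥) (hcomm : SameCommutant A 𝔥) (z : Fin (2 * g) → ℚ) :
    z ∈ Submodule.span ℚ {w | ∃ Y ∈ 𝔥, ∃ x, w = x ᵥ* Y} := by
  let 𝔥' : Submodule ℚ (Module.End ℚ A.H1) := 𝔥.comap (matL A).toLinearMap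
  have hmem : ∀ X : Module.End ℚ A.H1, mat A X ∈ 𝔥 ↔ X ∈ 𝔥' := fun _ => Iff.rfl
  have hfull : A.Full 𝔥' := by
    refine ⟨fun Y hY => (inLie_mat A).1 (hsub.1 _ hY), fun Y hY Z hZ => ?_, fun U hU => ?_,
      fun P hP Y hY => ?_⟩
    · change mat A (Y * Z - Z * Y) ∈ 𝔥
      rw [mat_br]
      exact hsub.2 _ hZ _ hY
    · obtain ⟨U', h1, h2⟩ := hsemi U (fun Y hY u hu => by
        obtain ⟨Y, rfl⟩ := mat_surj A Y
        rw [vecMul_mat]
        exact hU Y hY u hu)
      refine ⟨U', fun Y hY u hu => ?_, h2⟩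
      have h3 := h1 _ hY u hu
      rwa [show (matL A).toLinearMap Y = mat A Y from rfl, vecMul_mat] at h3
    · refine mat_inj A ?_
      rw [mat_mul, mat_mul]
      refine (hcomm _ (fun Z hZ => ?_) _ ((inLie_mat A).2 hY)).symm
      obtain ⟨Z, rfl⟩ := mat_surj A Z
      rw [← mat_mul, ← mat_mul]
      exact congrArg (mat A) (hP Z hZ).symm
  have h1 := Pool.Agent.H621.RM.img_top hfull z
  unfold Pool.Agent.H621.RM.img at h1
  refine Submodule.span_mono ?_ h1
  rintro _ ⟨Y, hY, x, rfl⟩
  exact ⟨mat A Y, hY, x, (vecMul_mat A Y x).symm⟩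

section Cor

variable {r K g n s : ℕ} {C : Matrix (Fin r) (Fin r) ℂ} (hC : IsUnit C.det)
  {lev : Fin r → Fin K} (hlev : ∀ i j, lev j < lev i → C i j = 0) {A : AbVarG g}
  {u : Fin n → Fin g → ℂ} {v : Fin s → Fin g → ℂ} {ℓ : Fin n → Fin s → ℂ}
  (hu : ∀ i, IsPoint A.toAbVar (u i)) (hv : ∀ l, IsPoint A.toAbVar (v l))
  {G : Subgroup (GL (Betti r g n s) ℂ)} (hG : IsAlgebraicSubgroup G)
  (hP : ContainsPeriods A C u v ℓ G)

include hC hlev hu hv hG hP

/-- **Corollary 1.** If all graded pieces of `M₀` have the rank one (for example if `M₀` is a mixed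
Tate motive), then `G` contains unipotent elements `1 × N` for all tuples of homology classes which
satisfy the relations between the points. There is no assumption on `A`. -/
theorem rank_one_unipotent (h1 : ∀ l : Fin K, Fintype.card {i // lev i = l} ≤ 1)
    {z : Fin n ⊕ Fin s → Fin (2 * g) → ℚ} (hz : SatisfiesRelations A u v z) :
    ∃ M, IsUnipotent A z M ∧ Contains G M := by
  obtain ⟨𝔥, 𝔫, h2, -, h3, h4, -, -, -, -, heq, -, hun, -⟩ :=
    result r K g n s C hC lev hlev A u v ℓ hu hv G hG hP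
  refine hun z hz fun q => ?_
  rw [heq h1]
  exact image_top h2 h3 h4 (z q)

/-- **Corollary 2.** If all graded pieces of `M₀` have the rank one (for example if `M₀` is a mixed
Tate motive), and `A` is a factor of a determined abelian variety, then `1 × Hg(M) ⊆ G`. -/
theorem rank_one (h1 : ∀ l : Fin K, Fintype.card {i // lev i = l} ≤ 1)
    (hA : ∃ (g' : ℕ) (B : AbVar g'), Determined B ∧ IsFactor A.toAbVar B) :
    ∀ x ∈ hodgeGroup A u v ℓ, Contains G (x : Matrix (BettiM g n s) (BettiM g n s) ℂ) := by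
  obtain ⟨𝔥, 𝔫, -, -, -, -, hJ, -, -, -, heq, -, -, hexp⟩ :=
    result r K g n s C hC lev hlev A u v ℓ hu hv G hG hP
  refine hexp ?_
  rw [heq h1]
  exact hJ hA

/-- **Corollary 3.** If `A` is determined, `Hg(A)` is simple over `ℚ`, and contains a compact torus of
dimension greater than `∑ l, ⌊r_l / 2⌋`, then `1 × Hg(M) ⊆ G`. -/
theorem determined_simple (hA : Determined A.toAbVar) (hs : IsSimple A.toAbVar) {m k : ℕ}
    {P : Fin m → MatC g} {w : Fin m → Fin k → ℤ} (hPw : IsTorus P w)
    (hin : InHodgeGroup A.toAbVar P w)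
    (heff : IsEffective P w) (hn : ∑ l : Fin K, Fintype.card {i // lev i = l} / 2 < k) :
    ∀ x ∈ hodgeGroup A u v ℓ, Contains G (x : Matrix (BettiM g n s) (BettiM g n s) ℂ) := by
  obtain ⟨𝔥, 𝔫, h1, h2, h3, h4, -, hid, hrc, htor, -, -, -, hexp⟩ :=
    result r K g n s C hC lev hlev A u v ℓ hu hv G hG hP
  have hle : lieAlg A.toAbVar ≤ 𝔥 := fun X hX => hA 𝔥 h1 h2 h3 h4 X (mem_lieAlg.1 hX)
  have hmono : ∀ {𝔞 𝔟 : Submodule ℚ (Mat g)}, 𝔞 ≤ 𝔟 → complexSpan 𝔞 ≤ complexSpan 𝔟 := by
    intro 𝔞 𝔟 hab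
    unfold complexSpan
    refine Submodule.span_mono ?_
    rintro _ ⟨Z, hZ, rfl⟩
    exact ⟨Z, hab hZ, rfl⟩
  obtain ⟨W, hW, hW'⟩ := htor m k P w hPw fun c => hmono hle (cocharacter_mem hPw hin c)
  have h5 : W ≠ ⊥ := by
    rintro rfl
    rw [finrank_bot] at hW
    omega
  obtain ⟨c, hc, hc0⟩ := Submodule.exists_mem_ne_zero_of_ne_bot h5
  rcases hs 𝔫 (fun Y hY => h1.1 Y (hid.1 hY))
    (fun X hX Y hY => hid.2 X (hle (mem_lieAlg.2 hX)) Y hY) hrc with h6 | h6
  · exfalso
    obtain ⟨a, ha, ha'⟩ := heff c hc0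
    have h7 : cocharacter P w c = 0 := by
      have h8 : complexSpan 𝔫 ≤ ⊥ := by
        unfold complexSpan
        rw [Submodule.span_le]
        rintro _ ⟨Z, hZ, rfl⟩
        rw [h6, Submodule.mem_bot] at hZ
        subst hZ
        change cplx 0 = 0
        unfold cplx
        ext i j
        simp
      exact h8 (hW' c hc)
    have h8 : cocharacter P w c * P a = (∑ j, (w a j : ℂ) * (c j : ℂ)) • P a := by
      unfold cocharacter
      rw [Finset.sum_mul, Finset.sum_eq_single a]
      · rw [smul_mul_assoc, hPw.mul, if_pos rfl]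
      · intro b _ hb
        rw [smul_mul_assoc, hPw.mul, if_neg hb, smul_zero]
      · intro h
        exact absurd (Finset.mem_univ _) h
    rw [h7, zero_mul] at h8
    rcases smul_eq_zero.1 h8.symm with h9 | h9
    · apply ha'
      exact_mod_cast h9
    · exact ha h9
  · exact hexp (hmono (fun X hX => h6 X (mem_lieAlg.1 hX)) (hodge_lieAlg A.toAbVar))

end Cor

/-- The abelian varieties which are determined in the sense of the library (`DT.Det`), in particular
those of the file `OneMotivesMumfordTate` of `MP_5d33ca_ag` (where the matrices act from the left),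
are determined in the sense of this file. -/
theorem determined_of_det {g : ℕ} {A : AbVar g} (hA : Det A) : Determined A := by
  intro 𝔥 hsub hrc hsemi hcomm X hX
  obtain ⟨X, rfl⟩ := mat_surj A X
  let 𝔥' : Submodule ℚ (Module.End ℚ A.H1) := 𝔥.comap (matL A).toLinearMap
  have hmem : ∀ X : Module.End ℚ A.H1, mat A X ∈ 𝔥 ↔ X ∈ 𝔥' := fun _ => Iff.rfl
  have hmm : mm A 𝔥' = 𝔥 := by
    ext Y
    obtain ⟨Y, rfl⟩ := mat_surj A Y
    rw [mem_mm, hmem]
  refine hA 𝔥' ⟨fun Y hY => (inLie_mat A).1 (hsub.1 _ hY), fun Y hY Z hZ => ?_, fun U hU => ?_,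
    fun P hP Y hY => ?_⟩ (rc_iff'.2 fun Y hY S σ Q hS hQ => ?_) ((inLie_mat A).1 hX)
  · change mat A (Y * Z - Z * Y) ∈ 𝔥
    rw [mat_br]
    exact hsub.2 _ hZ _ hY
  · obtain ⟨U', h1, h2⟩ := hsemi U (fun Y hY u hu => by
      obtain ⟨Y, rfl⟩ := mat_surj A Y
      rw [vecMul_mat]
      exact hU Y hY u hu)
    refine ⟨U', fun Y hY u hu => ?_, h2⟩
    have h3 := h1 _ hY u hu
    rwa [show (matL A).toLinearMap Y = mat A Y from rfl, vecMul_mat] at h3
  · refine mat_inj A ?_
    rw [mat_mul, mat_mul]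
    refine (hcomm _ (fun Z hZ => ?_) _ ((inLie_mat A).2 hY)).symm
    obtain ⟨Z, rfl⟩ := mat_surj A Z
    rw [← mat_mul, ← mat_mul]
    exact congrArg (mat A) (hP Z hZ).symm
  · rw [← span_mm, hmm, ← cplx_mat]
    rw [← cplx_mat] at hS
    exact hrc _ hY S σ Q hS hQ

namespace Planes

variable {g : ℕ} {A : AbVar g}

theorem mat_eq (T : EndH g) : mat T = toC T := (toC_eq T).symm

theorem matE_mat (T : EndH g) : matE (2 * g) (mat T) = T.baseChange ℂ := by
  rw [mat_eq, matE_toC]

/-- The data of the isogeny classes. -/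
theorem exists_classes (hA : IsSumOfPlanes A) :
    ∃ (C : Type) (_ : Finite C), Nonempty (Pool.Agent.R917.EC.CMS A C) := by
  obtain ⟨P, hP⟩ := hA
  have hcx : ∀ i, matE (2 * g) (P i) ∈ cx A.EA := by
    intro i
    have h1 : P i ∈ Submodule.span ℂ {Y | ∃ X ∈ A.EA, Y = toC X} := by
      refine Submodule.span_mono ?_ (hP.algebraic i)
      rintro _ ⟨T, hT, rfl⟩
      exact ⟨T, A.mem_EA.2 hT, mat_eq T⟩
    have h2 := Submodule.mem_map_of_mem (f := (matE (2 * g)).toLinearMap) h1
    rw [map_lie] at h2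
    exact h2
  have hrat : ∀ i (T : EndH g), matE (2 * g) (P i) = T.baseChange ℂ → P i = mat T := by
    intro i T h
    rw [← matE_mat] at h
    exact (matE (2 * g)).injective h
  refine Pool.Agent.R917.GL.exists_CMS_of (P := fun i => matE (2 * g) (P i)) hcx (fun i => ?_) ?_ (fun i => ?_)
    (fun i => ?_) ?_
  · rw [← map_mul, hP.projector]
  · rw [← map_sum, hP.sum, map_one]
  · rw [Pool.Agent.R917.GL.trace_matE, hP.plane]
  · rcases hP.type i with ⟨T, hT⟩ | ⟨h1, h2⟩
    · exact Or.inl ⟨T, by rw [hT, matE_mat]⟩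
    · refine Or.inr ⟨fun X hX => ?_, fun T hT => ?_⟩
      · have hc : toC X * P i = P i * toC X := by
          have h3 := Pool.Agent.R917.GL.CC_of_cx (bc_mem hX) _ (hcx i)
          rw [← matE_toC, ← map_mul, ← map_mul] at h3
          exact (matE (2 * g)).injective h3
        rw [← matE_toC, ← map_mul, Pool.Agent.R917.GL.trace_matE]
        refine Pool.Agent.R917.GL.trace_sym ?_ hX hc
        have h5 : riemannMatrix A = Pool.Agent.R917.GL.omM A := by
          ext a b
          exact riemannMatrix_eq a b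
        rw [← h5]
        exact h1
      · obtain ⟨z, hz⟩ := h2 T (A.mem_EA.1 hT)
        refine ⟨z, ?_⟩
        rw [← matE_mat, ← map_mul, ← map_mul, hz, map_smul]
  · intro i j E E' hij hi hj
    rcases hP.isogeny i j E E' hij (hrat i E hi) (hrat j E' hj) with ⟨T, hT, hT0⟩ | h
    · exact Or.inl ⟨T, A.mem_EA.2 hT, hT0⟩
    · exact Or.inr fun T hT => h T hT

end Planes

/-- The sums of planes are determined. -/
theorem determined_of_planes {g : ℕ} {A : AbVar g} (hA : Planes.IsSumOfPlanes A) :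
    Determined A := by
  obtain ⟨C, hC, ⟨S⟩⟩ := Planes.exists_classes hA
  exact determined_of_det (det_of_CMS S)

/-- **Corollary 4.** If all graded pieces of `M₀` have the rank one (for example if `M₀` is a mixed
Tate motive), and `A` is a factor of an abelian variety whose homology is a sum of planes (for example
a factor of a power of the Jacobian of a modular curve `X_1(N)`), then `1 × Hg(M) ⊆ G`. -/
theorem planes {r K g n s : ℕ} {C : Matrix (Fin r) (Fin r) ℂ} (hC : IsUnit C.det)
    {lev : Fin r → Fin K} (hlev : ∀ i j, lev j < lev i → C i j = 0) {A : AbVarG g}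
    {u : Fin n → Fin g → ℂ} {v : Fin s → Fin g → ℂ} {ℓ : Fin n → Fin s → ℂ}
    (hu : ∀ i, IsPoint A.toAbVar (u i)) (hv : ∀ l, IsPoint A.toAbVar (v l))
    {G : Subgroup (GL (Betti r g n s) ℂ)} (hG : IsAlgebraicSubgroup G)
    (hP : ContainsPeriods A C u v ℓ G) (h1 : ∀ l : Fin K, Fintype.card {i // lev i = l} ≤ 1)
    (hA : ∃ (g' : ℕ) (B : AbVar g'), Planes.IsSumOfPlanes B ∧ IsFactor A.toAbVar B) :
    ∀ x ∈ hodgeGroup A u v ℓ, Contains G (x : Matrix (BettiM g n s) (BettiM g n s) ℂ) := by
  obtain ⟨g', B, hB, hf⟩ := hA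
  exact rank_one hC hlev hu hv hG hP h1 ⟨g', B, determined_of_planes hB, hf⟩

end Pool.Agent.Results.MP_5d33ca_ag.RelativeOneMotives
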